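import Pool.Agent.Work.MP_db9399_ox_helper68.OXB
import Pool.Agent.Work.MP_db9399_og.Interface

/-! # OUTX, block OXB with condition (F) of OWNG (helper68) -/

set_option autoImplicit false
set_option linter.unusedSectionVars false

namespace Pool.Agent.Work.MP_db9399_ox.helper68

open Finset Classical
open Pool.Agent.Work.MP_db9399_all (nb)
open Pool.Agent.Work.MP_db9399_cg (cdg pk sx sp)
open Pool.Agent.Work.MP_db9399_sg
open Pool.Agent.Work.MP_db9399_en (HH wlk resE resO Wts)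
open Pool.Agent.Work.MP_db9399_og (Low Flw Stmt_FLW Stmt_ANT)

universe u

/-- OXB with `U` and the condition (F). -/
def Stmt_OXB2 : Prop :=
  ∀ a c1 : ℝ, 0 < a → a ≤ 1 / 100 → 0 < c1 → c1 ≤ 1 → ∃ C1 : ℝ, 0 < C1 ∧
    ∀ e ε1 CO : ℝ, 0 < e → 0 < ε1 → ε1 ≤ 1 → 1 ≤ CO → ∃ MS δ β : ℝ, 1 ≤ MS ∧ 0 < δ ∧ 0 < β ∧
    ∀ ρ0 ρ2 C C' : ℝ, 0 < ρ2 → ρ2 ≤ ρ0 → ρ0 ≤ β → ρ0 ≤ ε1 / 1000 → 1 ≤ C → C ≤ C' → ∃ d0 : ℕ,
    ∀ {V I I' J : Type u} [Fintype V] [Fintype I] [Fintype I'] [Fintype J] (P : ℕ)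
      (cl : Fin P → J) (H Gh : J → SimpleGraph V) (O W U : Finset V) (A Ex : J → Finset V)
      (nd : J → V → Option (I × Bool)) (pr : I → I') (d : ℕ) (D r : J → ℕ) (g : ℝ), d0 ≤ d →
      (d : ℝ) ^ (-(a / 200)) ≤ g → g ≤ 1 →
      Cls H Gh O W A Ex nd pr d D r a MS g δ β c1 C C' ρ0 →
      (∀ j, (univ.filter fun b => cl b = j).card + r j = D j) →
      (∀ j, ∀ z ∈ O, z ∉ U → (D j : ℝ) ≤ CO * ((nb (H j) z \ O).card : ℝ)) →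
      ∃ (S : J → SimpleGraph V) (K : Finset V) (Exc : J → Finset V) (L : ℕ)
        (N0 N : Fin P → V → V), 2 ≤ L ∧ (L : ℝ) ≤ (d : ℝ) ^ (a / 30) ∧
        (∀ j, ResN (H j) (Gh j) (S j) O (A j) (D j) (r j) a (g / 100) δ (2 * β + 8 * ρ0)
          (c1 / 100) (8 * ρ0) (8 * ρ2) MS K (Exc j)) ∧
        (∀ j, Krn (S j) O (r j) L (D j) a C1 e) ∧ (∀ j, Flw (H j) (S j) O U (r j) L (e * d)) ∧
        Mt0 H S cl O nd pr d D r a ε1 (1000 * C' ^ 2 * ρ0) L N0 ∧ Mt1 S cl W nd N0 N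

theorem num_u (a C : ℝ) (L0 : ℕ) (ha : 0 < a) (ha1 : a ≤ 1 / 100) (hC : 1 ≤ C) : ∃ d0 : ℕ,
    ∀ d D : ℕ, d0 ≤ d → D ≤ d → (d : ℝ) ≤ C * D →
      (L0 : ℝ) ≤ (d : ℝ) ^ (a / 50) ∧ 8 * (D : ℝ) ^ (a / 30) ≤ 2 * (D : ℝ) ^ (1 - a) := by
  refine ⟨⌈C * (((L0 : ℝ) + 4) ^ (50 / a) + 16)⌉₊, ?_⟩
  intro d D hd hDd hdD
  have hd' : C * (((L0 : ℝ) + 4) ^ (50 / a) + 16) ≤ d := by
    refine (Nat.le_ceil _).trans ?_
    exact_mod_cast hd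
  have hC0 : 0 < C := by linarith
  have hL0 : (0 : ℝ) ≤ L0 := Nat.cast_nonneg L0
  have hKp : (0 : ℝ) < ((L0 : ℝ) + 4) ^ (50 / a) := by positivity
  have hDb : ((L0 : ℝ) + 4) ^ (50 / a) + 16 ≤ (D : ℝ) :=
    le_of_mul_le_mul_left (hd'.trans hdD) hC0
  have hD0 : (0 : ℝ) < D := by linarith
  have hD1 : (1 : ℝ) ≤ D := by linarith
  have hDd' : (D : ℝ) ≤ d := by exact_mod_cast hDd
  have hK : (L0 : ℝ) + 4 ≤ (D : ℝ) ^ (a / 50) := by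
    have e3 : (((L0 : ℝ) + 4) ^ (50 / a)) ^ (a / 50) = (L0 : ℝ) + 4 := by
      rw [← Real.rpow_mul (by positivity)]
      have : 50 / a * (a / 50) = 1 := by field_simp
      rw [this, Real.rpow_one]
    calc (L0 : ℝ) + 4 = (((L0 : ℝ) + 4) ^ (50 / a)) ^ (a / 50) := e3.symm
      _ ≤ _ := Real.rpow_le_rpow hKp.le (by linarith) (by positivity)
  constructor
  · have : (D : ℝ) ^ (a / 50) ≤ (d : ℝ) ^ (a / 50) :=
      Real.rpow_le_rpow hD0.le hDd' (by positivity)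
    linarith
  · have e1 : (D : ℝ) ^ (1 - a) = (D : ℝ) ^ (1 - a - a / 30) * (D : ℝ) ^ (a / 30) := by
      rw [← Real.rpow_add hD0]
      congr 1
      ring
    have e2 : (D : ℝ) ^ (a / 50) ≤ (D : ℝ) ^ (1 - a - a / 30) :=
      Real.rpow_le_rpow_of_exponent_le hD1 (by linarith)
    have e3 : 0 < (D : ℝ) ^ (a / 30) := by positivity
    have e4 : 4 * (D : ℝ) ^ (a / 30) ≤ (D : ℝ) ^ (1 - a - a / 30) * (D : ℝ) ^ (a / 30) :=
      mul_le_mul_of_nonneg_right (by linarith) e3.le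
    rw [e1]
    linarith

theorem oxb2 (hAN : Stmt_ANT.{u}) (hFL : Stmt_FLW.{u}) (hKX : Stmt_KERX.{u})
    (hTK : Stmt_TOKN.{u}) (hXF : Stmt_OXF.{u}) : Stmt_OXB2.{u} := by
  intro a c1 ha ha1 hc1 hc11
  obtain ⟨C1, hC1, h1⟩ := hKX a (c1 / 100) ha ha1 (by positivity) (by linarith)
  refine ⟨C1, hC1, ?_⟩
  intro e ε1 CO he hε hε1 hCO
  obtain ⟨eX, heX, h2⟩ := oxt hTK a C1 ε1 ha ha1 hC1 hε hε1
  obtain ⟨MS, δ, β0, dK, hMS, hδ, hβ0, h3⟩ := h1 (min e eX) (lt_min he heX)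
  obtain ⟨βF, L0, hβF, hF⟩ := hFL e CO he hCO
  obtain ⟨βm, hβm, hβm1, hβm2⟩ : ∃ βm : ℝ, 0 < βm ∧ βm ≤ β0 ∧ βm ≤ βF :=
    ⟨min β0 βF, lt_min hβ0 hβF, min_le_left _ _, min_le_right _ _⟩
  refine ⟨MS, δ, βm / 10, hMS, hδ, by positivity, ?_⟩
  intro ρ0 ρ2 C C' hρ2 hρ20 hρβ hρε hC hCC'
  have hρ0 : 0 < ρ0 := hρ2.trans_le hρ20
  have hC0 : 0 < C := by linarith
  obtain ⟨dA, h4⟩ := hAN a ρ0 ρ2 MS C' δ (βm / 10) c1 2 ha ha1 hρ2 hρ20 (by linarith) hMS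
    (hC.trans hCC') hδ (by positivity) hc1 hc11
  obtain ⟨dT, h5⟩ := h2 MS δ (βm / 10) c1 ρ0 ρ2 C C' hρ0 hρε hρ20 hC hCC'
  obtain ⟨dN, h6⟩ := num_b a C ha ha1 hC
  obtain ⟨dM, h7⟩ := num_u a C L0 ha ha1 hC
  refine ⟨dA + dT + dN + dM + ⌈C * dK⌉₊, ?_⟩
  intro V I I' J _ _ _ _ P cl H Gh O W U A Ex nd pr d D r g hd hg hg1 hCl hcl hUr
  have hnum : ∀ j, _ := fun j => h6 d (D j) (by omega) (hCl.Dd j).1 (hCl.Dd j).2
  have hdK : ∀ j, dK ≤ D j := by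
    intro j
    have e1 : C * dK ≤ d := by
      refine (Nat.le_ceil _).trans ?_
      exact_mod_cast (by omega : ⌈C * (dK : ℝ)⌉₊ ≤ d)
    have e2 : (dK : ℝ) ≤ D j := le_of_mul_le_mul_left (e1.trans (hCl.Dd j).2) hC0
    exact_mod_cast e2
  obtain ⟨S, K, Exc, hS⟩ := h4 H Gh O A Ex ![univ \ O, O \ U] nd d D r g (by omega)
    (fun j => ⟨(hCl.Dd j).1, (hCl.Dd j).2.trans
      (mul_le_mul_of_nonneg_right hCC' (Nat.cast_nonneg _))⟩)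
    (hCl.Jc.trans hCC') hg hg1 hCl.rr hCl.wld
  have hnd := h6 d d (by omega) le_rfl (by
    have := mul_le_mul_of_nonneg_right hC (Nat.cast_nonneg (α := ℝ) d)
    linarith)
  obtain ⟨L, hL⟩ : ∃ L : ℕ, L = ⌈(d : ℝ) ^ (a / 50)⌉₊ := ⟨_, rfl⟩
  have hdp : (0 : ℝ) < (d : ℝ) ^ (a / 50) := by linarith [hnd.2.2.1]
  have hL1 : (d : ℝ) ^ (a / 50) ≤ L := by rw [hL]; exact Nat.le_ceil _
  have hL2 : (L : ℝ) ≤ (d : ℝ) ^ (a / 50) + 1 := by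
    rw [hL]; exact (Nat.ceil_lt_add_one hdp.le).le
  have hL3 : 2 ≤ L := by
    have : (1 : ℝ) < L := hnd.2.2.1.trans_le hL1
    exact_mod_cast this
  have hDd' : ∀ j, (D j : ℝ) ≤ d := fun j => by exact_mod_cast (hCl.Dd j).1
  have hD16 : ∀ j, (16 : ℝ) ≤ D j := by
    intro j
    have : 16 ≤ D j := (hnum j).2.2.2
    exact_mod_cast this
  have hDp : ∀ j, (0 : ℝ) < D j := fun j => by linarith [hD16 j]
  have hKrn : ∀ j, Krn (S j) O (r j) L (D j) a C1 (min e eX) := by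
    intro j
    have hR := (hS j).1
    obtain ⟨k1, k2, k3, k4, k5, k6⟩ := h3 (S j) (D j) (r j) L O (A j) (g / 100) (hdK j) (by
        have := (hnum j).1
        linarith) (by linarith) hR.rlo (by
        have e1 := (hCl.rr j).2.2
        have e2 : (D j : ℝ) ^ (1 - a / 3) ≤ D j := by
          calc (D j : ℝ) ^ (1 - a / 3) ≤ (D j : ℝ) ^ (1 : ℝ) :=
                Real.rpow_le_rpow_of_exponent_le (by linarith [hD16 j]) (by linarith)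
            _ = D j := Real.rpow_one _
        have e3 : (r j : ℝ) ≤ D j := by linarith
        exact_mod_cast e3) ((Real.rpow_le_rpow (hDp j).le (hDd' j) (by positivity)).trans hL1)
      (hL2.trans (hnum j).2.1) (ClS_mono hR.cl (by linarith))
    exact ⟨k1, k2, k3, k4, k5, k6⟩
  obtain ⟨N0, hN0⟩ := h5 P cl H Gh S O W K A Ex Exc nd pr d D r g L (by omega) hCl hcl
    (fun j => (hS j).1) (fun j => (hS j).2.1) (fun j => Krn_mono (hKrn j) (min_le_right _ _))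
  obtain ⟨N, hN⟩ := hXF P cl H Gh S O W K A Ex Exc nd pr d D r a MS g δ (βm / 10) c1 C C' ρ0 ρ2
    ε1 (1000 * C' ^ 2 * ρ0) L N0 (fun j => (hnum j).2.2.2) hCl hcl (fun j => (hS j).1) hN0
  refine ⟨S, K, Exc, L, N0, N, hL3, hL2.trans hnd.2.1, fun j => (hS j).1,
    fun j => Krn_mono (hKrn j) (min_le_left _ _), ?_, hN0, hN⟩
  intro j v
  have hR := (hS j).1
  have hr8 : 8 * L ≤ r j := by
    have e1 : (L : ℝ) ≤ (D j : ℝ) ^ (a / 30) := hL2.trans (hnum j).2.1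
    have e2 := (h7 d (D j) (by omega) (hCl.Dd j).1 (hCl.Dd j).2).2
    have e3 := (hCl.rr j).2.1
    exact_mod_cast (by linarith : 8 * (L : ℝ) ≤ r j)
  have hLL0 : L0 ≤ L := by
    have e2 := (h7 d (D j) (by omega) (hCl.Dd j).1 (hCl.Dd j).2).1
    exact_mod_cast e2.trans hL1
  have hfl := hF (H j) (S j) O U (D j) (r j) L (2 * (βm / 10) + 8 * ρ0) ρ2 hLL0 hr8
    (by positivity) (by linarith) (by linarith) hR.cl.hi hR.cl.cr ((hS j).2.2 0) ((hS j).2.2 1)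
    (hUr j) v
  exact hfl.trans (mul_le_mul_of_nonneg_left (hDd' j) he.le)

end Pool.Agent.Work.MP_db9399_ox.helper68
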