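import Pool.Agent.Work.MP_db9399_ox_helper68.OXT

/-! # OUTX, block OXB: reserves and matchings (helper68) -/

set_option autoImplicit false
set_option linter.unusedSectionVars false

namespace Pool.Agent.Work.MP_db9399_ox.helper68

open Finset Classical
open Pool.Agent.Work.MP_db9399_all (nb)
open Pool.Agent.Work.MP_db9399_cg (cdg pk sx sp)
open Pool.Agent.Work.MP_db9399_sg
open Pool.Agent.Work.MP_db9399_en (HH wlk resE resO Wts)

universe u

theorem num_b (a C : ℝ) (ha : 0 < a) (ha1 : a ≤ 1 / 100) (hC : 1 ≤ C) : ∃ d0 : ℕ, ∀ d D : ℕ,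
    d0 ≤ d → D ≤ d → (d : ℝ) ≤ C * D →
      100 * (D : ℝ) ^ (-(a / 150)) ≤ (d : ℝ) ^ (-(a / 200)) ∧
      (d : ℝ) ^ (a / 50) + 1 ≤ (D : ℝ) ^ (a / 30) ∧ 1 < (d : ℝ) ^ (a / 50) ∧ 16 ≤ D := by
  refine ⟨⌈C * ((100 * C) ^ (600 / a) + 16)⌉₊, ?_⟩
  intro d D hd hDd hdD
  have hd' : C * ((100 * C) ^ (600 / a) + 16) ≤ d := by
    refine (Nat.le_ceil _).trans ?_
    exact_mod_cast hd
  have hC0 : 0 < C := by linarith
  have hKp : (0 : ℝ) < (100 * C) ^ (600 / a) := by positivity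
  have hDb : (100 * C) ^ (600 / a) + 16 ≤ (D : ℝ) :=
    le_of_mul_le_mul_left (hd'.trans hdD) hC0
  have hD0 : (0 : ℝ) < D := by linarith
  have hD1 : (1 : ℝ) ≤ D := by linarith
  have hDd' : (D : ℝ) ≤ d := by exact_mod_cast hDd
  have hd0 : (0 : ℝ) < d := by linarith
  have hK : 100 * C ≤ (D : ℝ) ^ (a / 600) := by
    have e3 : ((100 * C) ^ (600 / a)) ^ (a / 600) = 100 * C := by
      rw [← Real.rpow_mul (by positivity)]
      have : 600 / a * (a / 600) = 1 := by field_simp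
      rw [this, Real.rpow_one]
    rw [← e3]
    exact Real.rpow_le_rpow hKp.le (by linarith) (by positivity)
  have hCp : ∀ t : ℝ, 0 ≤ t → t ≤ 1 → C ^ t ≤ C := by
    intro t _ h1
    calc C ^ t ≤ C ^ (1 : ℝ) := Real.rpow_le_rpow_of_exponent_le hC h1
      _ = C := Real.rpow_one C
  refine ⟨?_, ?_, ?_, ?_⟩
  · have e1 : (C * D) ^ (-(a / 200)) ≤ (d : ℝ) ^ (-(a / 200)) :=
      Real.rpow_le_rpow_of_nonpos hd0 hdD (by linarith)
    refine le_trans ?_ e1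
    rw [Real.mul_rpow hC0.le hD0.le]
    have e2 : (D : ℝ) ^ (-(a / 200)) = (D : ℝ) ^ (-(a / 150)) * (D : ℝ) ^ (a / 600) := by
      rw [← Real.rpow_add hD0]
      congr 1
      ring
    have e3 : C ^ (-(a / 200)) * C ^ (a / 200) = 1 := by
      rw [← Real.rpow_add hC0]
      simp
    have e4 := hCp (a / 200) (by positivity) (by linarith)
    have e5 : 0 < C ^ (-(a / 200)) := by positivity
    have e6 : 0 < (D : ℝ) ^ (-(a / 150)) := by positivity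
    rw [e2]
    have e7 : 100 ≤ C ^ (-(a / 200)) * (D : ℝ) ^ (a / 600) := by
      have e8 : C ^ (-(a / 200)) * (100 * C ^ (a / 200)) ≤ C ^ (-(a / 200)) * (D : ℝ) ^ (a / 600) :=
        mul_le_mul_of_nonneg_left (by linarith) e5.le
      calc (100 : ℝ) = 100 * (C ^ (-(a / 200)) * C ^ (a / 200)) := by rw [e3, mul_one]
        _ = C ^ (-(a / 200)) * (100 * C ^ (a / 200)) := by ring
        _ ≤ _ := e8
    calc 100 * (D : ℝ) ^ (-(a / 150)) ≤
        (C ^ (-(a / 200)) * (D : ℝ) ^ (a / 600)) * (D : ℝ) ^ (-(a / 150)) :=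
          mul_le_mul_of_nonneg_right e7 e6.le
      _ = C ^ (-(a / 200)) * ((D : ℝ) ^ (-(a / 150)) * (D : ℝ) ^ (a / 600)) := by ring
  · have e1 : (d : ℝ) ^ (a / 50) ≤ (C * D) ^ (a / 50) :=
      Real.rpow_le_rpow hd0.le hdD (by positivity)
    rw [Real.mul_rpow hC0.le hD0.le] at e1
    have e2 := hCp (a / 50) (by positivity) (by linarith)
    have e3 : 0 < (D : ℝ) ^ (a / 50) := by positivity
    have e4 : C ^ (a / 50) * (D : ℝ) ^ (a / 50) ≤ C * (D : ℝ) ^ (a / 50) :=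
      mul_le_mul_of_nonneg_right e2 e3.le
    have e5 : (D : ℝ) ^ (a / 30) = (D : ℝ) ^ (a / 75) * (D : ℝ) ^ (a / 50) := by
      rw [← Real.rpow_add hD0]
      congr 1
      ring
    have e6 : (D : ℝ) ^ (a / 600) ≤ (D : ℝ) ^ (a / 75) :=
      Real.rpow_le_rpow_of_exponent_le hD1 (by linarith)
    have e7 : 1 ≤ (D : ℝ) ^ (a / 50) := Real.one_le_rpow hD1 (by positivity)
    have e8 : 100 * C * (D : ℝ) ^ (a / 50) ≤ (D : ℝ) ^ (a / 75) * (D : ℝ) ^ (a / 50) :=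
      mul_le_mul_of_nonneg_right (hK.trans e6) e3.le
    have e9 : 1 * (D : ℝ) ^ (a / 50) ≤ C * (D : ℝ) ^ (a / 50) :=
      mul_le_mul_of_nonneg_right hC e3.le
    rw [e5]
    linarith
  · exact Real.one_lt_rpow (by linarith) (by positivity)
  · have : (16 : ℝ) ≤ D := by linarith
    exact_mod_cast this

theorem ClS_mono {V : Type u} [Fintype V] {S : SimpleGraph V} {D r : ℕ} {O A : Finset V}
    {MS g δ β β' c1 : ℝ} (h : ClS S D r O A MS g δ β c1) (hb : β ≤ β') :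
    ClS S D r O A MS g δ β' c1 :=
  { h with cr := fun v hv => (h.cr v hv).trans (mul_le_mul_of_nonneg_right hb (Nat.cast_nonneg r)) }

theorem Krn_mono {V : Type u} [Fintype V] {S : SimpleGraph V} {O : Finset V} {r L D : ℕ}
    {a C1 e e' : ℝ} (h : Krn S O r L D a C1 e) (he : e ≤ e') : Krn S O r L D a C1 e' :=
  { h with
    l2 := fun v => (h.l2 v).trans (div_le_div_of_nonneg_right he (Nat.cast_nonneg D))
    mean := fun v => (h.mean v).trans he }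

theorem oxb (hAN : Stmt_AN.{u}) (hKX : Stmt_KERX.{u}) (hTK : Stmt_TOKN.{u})
    (hXF : Stmt_OXF.{u}) : Stmt_OXB.{u} := by
  intro a c1 ha ha1 hc1 hc11
  obtain ⟨C1, hC1, h1⟩ := hKX a (c1 / 100) ha ha1 (by positivity) (by linarith)
  refine ⟨C1, hC1, ?_⟩
  intro e ε1 he hε hε1
  obtain ⟨eX, heX, h2⟩ := oxt hTK a C1 ε1 ha ha1 hC1 hε hε1
  obtain ⟨MS, δ, β0, dK, hMS, hδ, hβ0, h3⟩ := h1 (min e eX) (lt_min he heX)
  refine ⟨MS, δ, β0 / 10, hMS, hδ, by positivity, ?_⟩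
  intro ρ0 ρ2 C C' hρ2 hρ20 hρβ hρε hC hCC'
  have hρ0 : 0 < ρ0 := hρ2.trans_le hρ20
  have hC0 : 0 < C := by linarith
  obtain ⟨dA, h4⟩ := hAN a ρ0 ρ2 MS C' δ (β0 / 10) c1 ha ha1 hρ2 hρ20 (by linarith) hMS
    (hC.trans hCC') hδ (by positivity) hc1 hc11
  obtain ⟨dT, h5⟩ := h2 MS δ (β0 / 10) c1 ρ0 ρ2 C C' hρ0 hρε hρ20 hC hCC'
  obtain ⟨dN, h6⟩ := num_b a C ha ha1 hC
  refine ⟨dA + dT + dN + ⌈C * dK⌉₊, ?_⟩
  intro V I I' J _ _ _ _ P cl H Gh O W A Ex nd pr d D r g hd hg hg1 hCl hcl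
  have hnum : ∀ j, _ := fun j => h6 d (D j) (by omega) (hCl.Dd j).1 (hCl.Dd j).2
  have hdK : ∀ j, dK ≤ D j := by
    intro j
    have e1 : C * dK ≤ d := by
      refine (Nat.le_ceil _).trans ?_
      exact_mod_cast (by omega : ⌈C * (dK : ℝ)⌉₊ ≤ d)
    have e2 : (dK : ℝ) ≤ D j := le_of_mul_le_mul_left (e1.trans (hCl.Dd j).2) hC0
    exact_mod_cast e2
  obtain ⟨S, K, Exc, hS⟩ := h4 H Gh O A Ex nd d D r g (by omega)
    (fun j => ⟨(hCl.Dd j).1, (hCl.Dd j).2.trans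
      (mul_le_mul_of_nonneg_right hCC' (Nat.cast_nonneg _))⟩)
    (hCl.Jc.trans hCC') hg hg1 hCl.rr hCl.wld
  have hnd := h6 d d (by omega) le_rfl (by
    have := mul_le_mul_of_nonneg_right hC (Nat.cast_nonneg (α := ℝ) d)
    linarith)
  obtain ⟨L, hL⟩ : ∃ L : ℕ, L = ⌈(d : ℝ) ^ (a / 50)⌉₊ := ⟨_, rfl⟩
  have hdp : (0 : ℝ) < (d : ℝ) ^ (a / 50) := by linarith [hnd.2.2.1]
  have hL1 : (d : ℝ) ^ (a / 50) ≤ L := by rw [hL]; exact Nat.le_ceil _
  have hL2 : (L : ℝ) ≤ (d : ℝ) ^ (a / 50) + 1 := by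
    rw [hL]; exact (Nat.ceil_lt_add_one hdp.le).le
  have hL3 : 2 ≤ L := by
    have : (1 : ℝ) < L := hnd.2.2.1.trans_le hL1
    exact_mod_cast this
  have hDd' : ∀ j, (D j : ℝ) ≤ d := fun j => by exact_mod_cast (hCl.Dd j).1
  have hD16 : ∀ j, (16 : ℝ) ≤ D j := by
    intro j
    have : 16 ≤ D j := (hnum j).2.2.2
    exact_mod_cast this
  have hDp : ∀ j, (0 : ℝ) < D j := fun j => by linarith [hD16 j]
  have hKrn : ∀ j, Krn (S j) O (r j) L (D j) a C1 (min e eX) := by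
    intro j
    have hR := (hS j).1
    obtain ⟨k1, k2, k3, k4, k5, k6⟩ := h3 (S j) (D j) (r j) L O (A j) (g / 100) (hdK j) (by
        have := (hnum j).1
        linarith) (by linarith) hR.rlo (by
        have e1 := (hCl.rr j).2.2
        have e2 : (D j : ℝ) ^ (1 - a / 3) ≤ D j := by
          calc (D j : ℝ) ^ (1 - a / 3) ≤ (D j : ℝ) ^ (1 : ℝ) :=
                Real.rpow_le_rpow_of_exponent_le (by linarith [hD16 j]) (by linarith)
            _ = D j := Real.rpow_one _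
        have e3 : (r j : ℝ) ≤ D j := by linarith
        exact_mod_cast e3) ((Real.rpow_le_rpow (hDp j).le (hDd' j) (by positivity)).trans hL1)
      (hL2.trans (hnum j).2.1) (ClS_mono hR.cl (by linarith))
    exact ⟨k1, k2, k3, k4, k5, k6⟩
  obtain ⟨N0, hN0⟩ := h5 P cl H Gh S O W K A Ex Exc nd pr d D r g L (by omega) hCl hcl
    (fun j => (hS j).1) (fun j => (hS j).2) (fun j => Krn_mono (hKrn j) (min_le_right _ _))
  obtain ⟨N, hN⟩ := hXF P cl H Gh S O W K A Ex Exc nd pr d D r a MS g δ (β0 / 10) c1 C C' ρ0 ρ2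
    ε1 (1000 * C' ^ 2 * ρ0) L N0 (fun j => (hnum j).2.2.2) hCl hcl (fun j => (hS j).1) hN0
  exact ⟨S, K, Exc, L, N0, N, hL3, hL2.trans hnd.2.1, fun j => (hS j).1,
    fun j => Krn_mono (hKrn j) (min_le_left _ _), hN0, hN⟩

end Pool.Agent.Work.MP_db9399_ox.helper68
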