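import Pool.Agent.Work.MP_db9399_ox_helper68.OXTB

/-! # OUTX, block OXT: from TOKN to the matchings `N0` (helper68)

`oxt` has two hypotheses more than `Stmt_OXT`: `Ex j ⊆ Exc j` (an output of AN) and `ρ2 ≤ ρ0`. -/

set_option autoImplicit false
set_option linter.unusedSectionVars false

namespace Pool.Agent.Work.MP_db9399_ox.helper68

open Finset Classical
open Pool.Agent.Work.MP_db9399_all (nb)
open Pool.Agent.Work.MP_db9399_cg (cdg pk sx sp)
open Pool.Agent.Work.MP_db9399_sg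
open Pool.Agent.Work.MP_db9399_en (HH wlk resE resO Wts)

universe u

/-- `Mt0` for one class with the colours of `B` -/
structure M1 {V I I' : Type u} [Fintype V] [Fintype I] [Fintype I'] {Q : ℕ} (B : Finset (Fin Q))
    (H S : SimpleGraph V) (O : Finset V) (nd : V → Option (I × Bool)) (pr : I → I') (d D r : ℕ)
    (a ε1 ρ1 : ℝ) (L : ℕ) (N : Fin Q → V → V) : Prop where
  NN : ∀ b ∈ B, ∀ v, N b (N b v) = v
  NG : ∀ b ∈ B, ∀ v, N b v ≠ v → H.Adj v (N b v) ∧ ¬ S.Adj v (N b v)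
  Nd : ∀ b ∈ B, ∀ b' ∈ B, ∀ v, N b v ≠ v → N b v = N b' v → b = b'
  co : ∀ v w, H.Adj v w → ¬ S.Adj v w → ∃ b ∈ B, N b v = w
  sum : ∀ i, |∑ b ∈ B, (sgn nd N i b : ℝ) - sdg H nd i| ≤ ρ1 * d
  win : ∀ b ∈ B, ∀ i, |(sgn nd N i b : ℝ) - sdg H nd i / ((D : ℝ) - r)| ≤ 2 + ρ1
  winS : ∀ i, ∑ b ∈ B, |(sgn nd N i b : ℝ) - sdg H nd i / ((D : ℝ) - r)| ≤
    (1 + ε1) * ((D : ℝ) - r) + ρ1 * d
  winP : ∀ b ∈ B, ∀ i', |sgP nd pr N i' b - (∑ i with pr i = i', sdg H nd i) / ((D : ℝ) - r)| ≤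
    2 + ρ1
  winPS : ∀ i', ∑ b ∈ B, |sgP nd pr N i' b - (∑ i with pr i = i', sdg H nd i) / ((D : ℝ) - r)| ≤
    (1 + ε1) * ((D : ℝ) - r) + ρ1 * d
  load : ∀ b ∈ B, ∀ i s, (((nsd nd i s).filter fun v => N b v ≠ v).card : ℝ) ≤
    8 * ((∑ v ∈ nsd nd i s, ((nb H v).card : ℝ)) / ((D : ℝ) - r)) + sp d a
  tok : ∀ b ∈ B, ∀ v, (((nb S v ∩ O).filter fun w => N b w = w).card : ℝ) ≤ sp d a
  tkc : ∀ x ∈ O, (B.filter fun b => N b x = x).card + (nb H x).card + r = D + (nb S x).card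
  tst : ∀ v, ∑ b ∈ B, |∑ x ∈ O.filter (fun x => N b x = x),
    (k0 S r L v x - k1 S r L v x)| ≤ ε1

section

variable {V I I' : Type u} [Fintype V] [Fintype I] [Fintype I']
  {H Gh S : SimpleGraph V} {O A Ex Exc K : Finset V} {nd : V → Option (I × Bool)} {D r : ℕ}
  {a MS g δ β c1 C' ρ0 ρ1 ρ2 gS δS βS c1S MSS : ℝ}

/-- the tests -/
noncomputable def kt (S : SimpleGraph V) (O : Finset V) (r L : ℕ) (v x : V) : ℝ :=
  if x ∈ O then k0 S r L v x - k1 S r L v x else 0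

theorem abs_kt (S : SimpleGraph V) (O : Finset V) (r L : ℕ) (v x : V) :
    |kt S O r L v x| ≤ k0 S r L v x + k1 S r L v x := by
  have h0 := k0_nonneg S r L v x
  have h1 := k1_nonneg S r L v x
  unfold kt
  split_ifs
  · rw [abs_le]
    constructor <;> linarith
  · rw [abs_zero]
    linarith

theorem kt_tst {L : ℕ} {C1 e e' C : ℝ} (hK : Krn S O r L D a C1 e) (hC : C1 ≤ C) (he : e ≤ e') :
    TstN O (kt S O r L) D a C e' := by
  have hD0 : (0 : ℝ) ≤ D := Nat.cast_nonneg D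
  refine ⟨?_, ?_, ?_, ?_, ?_, ?_⟩
  · intro v x hx
    unfold kt
    rw [if_neg hx]
  · intro v x
    exact (abs_kt S O r L v x).trans ((hK.sup v x).trans (div_le_div_of_nonneg_right hC hD0))
  · intro v
    have h1 : ∑ x, kt S O r L v x ^ 2 = ∑ x ∈ O, kt S O r L v x ^ 2 := by
      rw [← Finset.sum_subset (Finset.subset_univ O)]
      intro x _ hx
      unfold kt
      rw [if_neg hx]
      norm_num
    rw [h1]
    refine le_trans ?_ ((hK.l2 v).trans (div_le_div_of_nonneg_right he hD0))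
    apply Finset.sum_le_sum
    intro x _
    have := abs_kt S O r L v x
    rw [← sq_abs]
    exact pow_le_pow_left₀ (abs_nonneg _) this 2
  · intro v
    exact (Finset.sum_le_sum fun x _ => abs_kt S O r L v x).trans (hK.l1 v)
  · intro v
    refine le_trans ?_ (hK.spx v)
    have : (univ.filter fun x => kt S O r L v x ≠ 0) ⊆
        univ.filter fun x => k0 S r L v x + k1 S r L v x ≠ 0 := by
      intro x hx
      rw [Finset.mem_filter] at hx ⊢
      refine ⟨Finset.mem_univ _, fun h => hx.2 ?_⟩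
      have := abs_kt S O r L v x
      rw [h] at this
      exact abs_nonpos_iff.1 this
    exact_mod_cast Finset.card_le_card this
  · intro x
    refine le_trans ?_ (hK.spv x)
    have : (univ.filter fun v => kt S O r L v x ≠ 0) ⊆
        univ.filter fun v => k0 S r L v x + k1 S r L v x ≠ 0 := by
      intro v hx
      rw [Finset.mem_filter] at hx ⊢
      refine ⟨Finset.mem_univ _, fun h => hx.2 ?_⟩
      have := abs_kt S O r L v x
      rw [h] at this
      exact abs_nonpos_iff.1 this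
    exact_mod_cast Finset.card_le_card this

/-- the main term of the tests -/
theorem main_tst {Q L : ℕ} {B : Finset (Fin Q)} {pr : I → I'} {ε C1 e : ℝ}
    {N : Fin Q → V → V} (hW : Wld H Gh O A Ex nd D MS g δ β c1 C' ρ0)
    (hR : ResN H Gh S O A D r a gS δS βS c1S ρ1 ρ2 MSS K Exc) (hE : Ex ⊆ Exc) (hr : 0 < r)
    (hρ1 : 0 ≤ ρ1) (hB : B.card + r = D) (hK : Krn S O r L D a C1 e)
    (hT : TB B (H \ S) S O nd pr D a ε (kt S O r L) N) (v : V) :
    |∑ x ∈ O, kt S O r L v x * ((B.filter fun b => N b x = x).card : ℝ)| ≤ e + 6 * ρ1 := by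
  have hcnt : ∀ x ∈ O, |((B.filter fun b => N b x = x).card : ℝ) - 1| ≤ 2 := by
    intro x hx
    obtain ⟨h1, h2, h3, h4, h5⟩ := degE_O hW hR hx
    have h6 := cnt_fix hT x
    have h7 : (B.filter fun b => N b x = x).card ≤ 3 := by omega
    have h8 : ((B.filter fun b => N b x = x).card : ℝ) ≤ 3 := by exact_mod_cast h7
    have h9 : (0 : ℝ) ≤ ((B.filter fun b => N b x = x).card : ℝ) := Nat.cast_nonneg _
    rw [abs_le]
    constructor <;> linarith
  have hcnt1 : ∀ x ∈ O, x ∉ Exc → ((B.filter fun b => N b x = x).card : ℝ) = 1 := by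
    intro x hx hxE
    obtain ⟨h1, h2, h3, h4, h5⟩ := degE_O hW hR hx
    have h6 := cnt_fix hT x
    have h7 := hR.off x (hW.OA hx) hxE
    have h8 := hW.deg x (hW.OA hx) (fun h => hxE (hE h))
    rw [nbGh_O hW hx] at h8
    have h9 : (B.filter fun b => N b x = x).card = 1 := by omega
    exact_mod_cast h9
  have e1 : ∑ x ∈ O, kt S O r L v x * ((B.filter fun b => N b x = x).card : ℝ) =
      ∑ x ∈ O, (k0 S r L v x - k1 S r L v x) +
        ∑ x ∈ O, kt S O r L v x * (((B.filter fun b => N b x = x).card : ℝ) - 1) := by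
    rw [← Finset.sum_add_distrib]
    apply Finset.sum_congr rfl
    intro x hx
    unfold kt
    rw [if_pos hx]
    ring
  have e2 : |∑ x ∈ O, kt S O r L v x * (((B.filter fun b => N b x = x).card : ℝ) - 1)| ≤
      6 * ρ1 := by
    refine (Finset.abs_sum_le_sum_abs _ _).trans ?_
    have e3 : ∀ x ∈ O, |kt S O r L v x * (((B.filter fun b => N b x = x).card : ℝ) - 1)| ≤
        if x ∈ Exc then 2 * (k0 S r L v x + k1 S r L v x) else 0 := by
      intro x hx
      split_ifs with h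
      · rw [abs_mul, mul_comm]
        exact mul_le_mul (hcnt x hx) (abs_kt S O r L v x) (abs_nonneg _) (by norm_num)
      · rw [hcnt1 x hx h, sub_self, mul_zero, abs_zero]
    refine (Finset.sum_le_sum e3).trans ?_
    rw [← Finset.sum_filter]
    have e4 : ∑ x ∈ O.filter (fun x => x ∈ Exc), 2 * (k0 S r L v x + k1 S r L v x) ≤
        ∑ x ∈ Exc, 2 * (k0 S r L v x + k1 S r L v x) := by
      apply Finset.sum_le_sum_of_subset_of_nonneg
      · intro x hx
        exact (Finset.mem_filter.1 hx).2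
      · intro x _ _
        have := k0_nonneg S r L v x
        have := k1_nonneg S r L v x
        positivity
    rw [← Finset.mul_sum, ← Finset.mul_sum] at e4
    rw [← Finset.mul_sum]
    have e5 := mass_k S A Exc r L ρ1 hr hρ1 (hR.cl.sup) (hR.cl.lo) hR.exc v
    have e6 : ρ1 * ∑ x, (k0 S r L v x + k1 S r L v x) ≤ ρ1 * 3 :=
      mul_le_mul_of_nonneg_left (hK.l1 v) hρ1
    linarith
  rw [e1]
  exact (abs_add_le _ _).trans (add_le_add (hK.mean v) e2)

end

theorem cls_tok (hTK : Stmt_TOKN.{u}) (a C1 ε1 : ℝ) (ha : 0 < a) (ha1 : a ≤ 1 / 100)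
    (hε : 0 < ε1) (hε1 : ε1 ≤ 1) : ∃ e : ℝ, 0 < e ∧ ∀ C C' : ℝ, 1 ≤ C → C ≤ C' →
      ∃ d0 : ℕ, ∀ {V I I' : Type u} [Fintype V] [Fintype I] [Fintype I'] {Q : ℕ}
        (B : Finset (Fin Q)) (H Gh S : SimpleGraph V) (O A Ex Exc K : Finset V)
        (nd : V → Option (I × Bool)) (pr : I → I') (d D r L : ℕ)
        (MS g δ β c1 ρ0 ρ2 gS δS βS c1S MSS : ℝ), d0 ≤ d → 0 < ρ0 → ρ0 ≤ ε1 / 1000 → ρ2 ≤ ρ0 →
        Wld H Gh O A Ex nd D MS g δ β c1 C' ρ0 → D ≤ d → (d : ℝ) ≤ C * D →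
        (r : ℝ) + 2 ≤ (D : ℝ) ^ (1 - a / 3) → (∀ v, nd v ≠ none → 8 * (nb H v).card ≤ D) →
        (∀ i', (univ.filter fun i => pr i = i').card ≤ 2) → B.card + r = D →
        ResN H Gh S O A D r a gS δS βS c1S (8 * ρ0) (8 * ρ2) MSS K Exc → Ex ⊆ Exc →
        Krn S O r L D a C1 e → ∃ N : Fin Q → V → V,
          M1 B H S O nd pr d D r a ε1 (1000 * C' ^ 2 * ρ0) L N := by
  obtain ⟨eT, heT, h1⟩ := tok_B hTK a (ε1 / 4) (max C1 1) ha ha1 (by positivity)
    (le_max_right _ _)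
  refine ⟨min eT (ε1 / 4), lt_min heT (by positivity), ?_⟩
  intro C C' hC hCC'
  have hC' : 1 ≤ C' := hC.trans hCC'
  obtain ⟨d1, h2⟩ := h1 C' hC'
  refine ⟨⌈C * (d1 + (2 : ℝ) ^ (3 / a) + 8)⌉₊, ?_⟩
  intro V I I' _ _ _ Q B H Gh S O A Ex Exc K nd pr d D r L MS g δ β c1 ρ0 ρ2 gS δS βS c1S MSS hd
    hρ0 hρε hρ2 hW hDd hdD hrD hlgt hpr hB hR hE hK
  have hd' : C * (d1 + (2 : ℝ) ^ (3 / a) + 8) ≤ d := by
    refine (Nat.le_ceil _).trans ?_
    exact_mod_cast hd
  have h2p : (0 : ℝ) < (2 : ℝ) ^ (3 / a) := by positivity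
  have hDb : (d1 : ℝ) + (2 : ℝ) ^ (3 / a) + 8 ≤ D := by
    have : C * (d1 + (2 : ℝ) ^ (3 / a) + 8) ≤ C * D := hd'.trans hdD
    exact le_of_mul_le_mul_left this (by linarith)
  have hd1 : (0 : ℝ) ≤ d1 := Nat.cast_nonneg d1
  have hD8 : (8 : ℝ) ≤ D := by linarith
  have hD0 : (0 : ℝ) < D := by linarith
  have hD0' : 0 < D := by exact_mod_cast hD0
  have hdD' : (D : ℝ) ≤ d := by exact_mod_cast hDd
  -- `r + 2 ≤ D / 2`
  have hr2 : (r : ℝ) + 2 ≤ D / 2 := by
    refine hrD.trans ?_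
    have e1 : (D : ℝ) ^ (1 - a / 3) = D / (D : ℝ) ^ (a / 3) := by
      rw [Real.rpow_sub hD0, Real.rpow_one]
    have e2 : (2 : ℝ) ≤ (D : ℝ) ^ (a / 3) := by
      have e3 : ((2 : ℝ) ^ (3 / a)) ^ (a / 3) = 2 := by
        rw [← Real.rpow_mul (by norm_num)]
        have : 3 / a * (a / 3) = 1 := by field_simp
        rw [this, Real.rpow_one]
      rw [← e3]
      exact Real.rpow_le_rpow h2p.le (by linarith) (by positivity)
    rw [e1]
    exact div_le_div_of_nonneg_left hD0.le (by norm_num) e2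
  have hr0 : 0 < r := by
    have e1 := hR.rlo
    have e2 : 0 < (D : ℝ) ^ (1 - a) := Real.rpow_pos_of_pos hD0 _
    exact_mod_cast e2.trans_le e1
  have hBr : (B.card : ℝ) = D - r := by
    have : (B.card : ℝ) + r = D := by exact_mod_cast hB
    linarith
  have hrn : r + 2 ≤ D := by
    have : (r : ℝ) + 2 ≤ D := by linarith
    exact_mod_cast this
  have hρ1 : (0 : ℝ) ≤ 8 * ρ0 := by linarith
  have hρ2' : 8 * ρ2 ≤ 1 / 100 := by linarith
  have hlgE : ∀ v, nd v ≠ none → 8 * (nb (H \ S) v).card ≤ D := by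
    intro v hv
    have := card_nb_sdiff H S v
    have := hlgt v hv
    omega
  obtain ⟨N, hT⟩ := h2 B (H \ S) S O nd pr D r (kt S O r L) (by
      have : (d1 : ℝ) ≤ D := by linarith
      exact_mod_cast this) hpr (fun v hv => (hW.cov v (hW.OA hv)).1 hv) hW.sz2 (by
      rw [hBr]
      linarith) (by omega) (by omega) hR.cl.hi (fun v => by
      have := degE_le hW hR (by omega) v
      omega) (fun v hv => by
      obtain ⟨g1, g2, g3, g4, g5⟩ := degE_O hW hR hv
      omega) hlgE (kt_tst hK (le_max_left _ _) (min_le_left _ _))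
  refine ⟨N, ?_⟩
  have hP0 : (0 : ℝ) < B.card := by rw [hBr]; linarith
  have hDP : (D : ℝ) ≤ 2 * B.card := by rw [hBr]; linarith
  have hsdg : ∀ i, |sdg (H \ S) nd i - sdg H nd i| ≤ 32 * C' * ρ0 * D := by
    intro i
    rw [sdg_sub hW hR i]
    have e1 := sdg_S hW hR hD0' hr0 hlgt hρ1 hρ2' i
    have e2 : sdg H nd i - sdg S nd i - sdg H nd i = -sdg S nd i := by ring
    rw [e2, abs_neg]
    linarith
  have hC'ρ : 0 < C' * ρ0 := by positivity
  have hbig : C' * ρ0 ≤ C' ^ 2 * ρ0 := by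
    have : C' * ρ0 * 1 ≤ C' * ρ0 * C' := mul_le_mul_of_nonneg_left hC' hC'ρ.le
    calc C' * ρ0 = C' * ρ0 * 1 := by ring
      _ ≤ C' * ρ0 * C' := this
      _ = C' ^ 2 * ρ0 := by ring
  have hbigd : 64 * C' * ρ0 * D ≤ 1000 * C' ^ 2 * ρ0 * d := by
    have e1 : 64 * C' * ρ0 * D ≤ 64 * C' * ρ0 * d := mul_le_mul_of_nonneg_left hdD' (by positivity)
    have e2 : 64 * C' * ρ0 * d ≤ 1000 * C' ^ 2 * ρ0 * d := by
      apply mul_le_mul_of_nonneg_right _ (Nat.cast_nonneg d)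
      linarith
    linarith
  have hbig1 : 64 * C' * ρ0 * D / B.card ≤ 1000 * C' ^ 2 * ρ0 := by
    rw [div_le_iff₀ hP0]
    have e1 : 64 * C' * ρ0 * D ≤ 64 * C' * ρ0 * (2 * B.card) :=
      mul_le_mul_of_nonneg_left hDP (by positivity)
    have e2 : 128 * (C' * ρ0) * B.card ≤ 1000 * C' ^ 2 * ρ0 * B.card := by
      apply mul_le_mul_of_nonneg_right _ hP0.le
      linarith
    linarith
  have hD64 : 32 * C' * ρ0 * D ≤ 64 * C' * ρ0 * D := by
    have : 0 ≤ C' * ρ0 * D := by positivity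
    linarith
  have hsP : ∀ i', ∑ b ∈ B, ∑ i with pr i = i', (sgn nd N i b : ℝ) =
      ∑ i with pr i = i', sdg (H \ S) nd i := by
    intro i'
    rw [Finset.sum_comm]
    exact Finset.sum_congr rfl fun i _ => sum_sgn hT i
  have hsdgP : ∀ i', |∑ i with pr i = i', sdg (H \ S) nd i -
      ∑ i with pr i = i', sdg H nd i| ≤ 64 * C' * ρ0 * D := by
    intro i'
    rw [← Finset.sum_sub_distrib]
    refine (Finset.abs_sum_le_sum_abs _ _).trans ?_
    refine (Finset.sum_le_sum fun i _ => hsdg i).trans ?_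
    rw [Finset.sum_const, nsmul_eq_mul]
    have e1 : (((univ.filter fun i => pr i = i').card : ℕ) : ℝ) ≤ 2 := by exact_mod_cast hpr i'
    have e2 : 0 ≤ 32 * C' * ρ0 * D := by positivity
    have e3 := mul_le_mul_of_nonneg_right e1 e2
    linarith
  have hspm : sp D a ≤ sp d a := by
    unfold sp
    exact Real.rpow_le_rpow hD0.le hdD' (by positivity)
  -- a general comparison
  have hcmp : ∀ y s t Z : ℝ, |s - t| ≤ Z → |y - t / B.card| ≤ |y - s / B.card| + Z / B.card := by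
    intro y s t Z h
    have e1 : y - t / B.card = (y - s / B.card) + (s - t) / B.card := by ring
    rw [e1]
    refine (abs_add_le _ _).trans ?_
    rw [abs_div, abs_of_pos hP0]
    exact add_le_add le_rfl (div_le_div_of_nonneg_right h hP0.le)
  have hcmpS : ∀ (y : Fin Q → ℝ) (s t Z : ℝ), |s - t| ≤ Z → ∑ b ∈ B, |y b - t / B.card| ≤
      ∑ b ∈ B, |y b - s / B.card| + Z := by
    intro y s t Z h
    refine (Finset.sum_le_sum fun b _ => hcmp (y b) s t Z h).trans ?_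
    rw [Finset.sum_add_distrib, Finset.sum_const, nsmul_eq_mul, mul_div_cancel₀ _ hP0.ne']
  have hεP : (1 + ε1 / 4) * (B.card : ℝ) ≤ (1 + ε1) * B.card :=
    mul_le_mul_of_nonneg_right (by linarith) hP0.le
  have hZ32 : 32 * C' * ρ0 * D / B.card ≤ 64 * C' * ρ0 * D / B.card :=
    div_le_div_of_nonneg_right hD64 hP0.le
  constructor
  · exact hT.NN
  · intro b hb v h
    have := hT.NG b hb v h
    rw [SimpleGraph.sdiff_adj] at this
    exact this
  · exact hT.Nd
  · intro v w h h'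
    exact hT.co v w (by rw [SimpleGraph.sdiff_adj]; exact ⟨h, h'⟩)
  · intro i
    rw [sum_sgn hT i]
    exact (hsdg i).trans (hD64.trans hbigd)
  · intro b hb i
    have e1 := hT.win i b hb
    rw [sum_sgn hT i] at e1
    have e2 := hcmp (sgn nd N i b : ℝ) _ _ _ (hsdg i)
    rw [← hBr]
    linarith
  · intro i
    have e1 := hT.winS i
    rw [sum_sgn hT i] at e1
    have e2 := hcmpS (fun b => (sgn nd N i b : ℝ)) _ _ _ (hsdg i)
    rw [← hBr]
    linarith
  · intro b hb i'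
    have e1 := hT.winP i' b hb
    rw [hsP] at e1
    have e2 := hcmp (sgP nd pr N i' b) _ _ _ (hsdgP i')
    rw [← hBr]
    unfold sgP at e2 ⊢
    linarith
  · intro i'
    have e1 := hT.winPS i'
    rw [hsP] at e1
    have e2 := hcmpS (fun b => sgP nd pr N i' b) _ _ _ (hsdgP i')
    rw [← hBr]
    unfold sgP at e2 ⊢
    linarith
  · intro b hb i s
    refine (hT.load i s b hb).trans (add_le_add ?_ hspm)
    rw [← hBr]
    apply mul_le_mul_of_nonneg_left _ (by norm_num)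
    apply div_le_div_of_nonneg_right _ hP0.le
    apply Finset.sum_le_sum
    intro v _
    have := card_nb_sdiff H S v
    exact_mod_cast (by omega : (nb (H \ S) v).card ≤ (nb H v).card)
  · intro b hb v
    exact (hT.tok b hb v).trans hspm
  · intro x hx
    obtain ⟨g1, g2, g3, g4, g5⟩ := degE_O hW hR hx
    have g6 := cnt_fix hT x
    omega
  · intro v
    have e1 := hT.tst v
    have e2 := main_tst hW hR hE hr0 hρ1 hB hK hT v
    have e3 : ∀ b, ∑ x ∈ O.filter (fun x => N b x = x), (k0 S r L v x - k1 S r L v x) =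
        ∑ x ∈ O.filter (fun x => N b x = x), kt S O r L v x := by
      intro b
      apply Finset.sum_congr rfl
      intro x hx
      unfold kt
      rw [if_pos (Finset.mem_filter.1 hx).1]
    simp only [e3]
    have e4 := hcmpS (fun b => ∑ x ∈ O.filter (fun x => N b x = x), kt S O r L v x)
      (∑ x ∈ O, kt S O r L v x * ((B.filter fun b => N b x = x).card : ℝ)) 0
      (min eT (ε1 / 4) + 6 * (8 * ρ0)) (by rw [sub_zero]; exact e2)
    simp only [zero_div, sub_zero] at e4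
    have e5 : min eT (ε1 / 4) ≤ ε1 / 4 := min_le_right _ _
    linarith

/-- OXT with the two additional hypotheses `ρ2 ≤ ρ0`, `Ex j ⊆ Exc j` -/
theorem oxt (hTK : Stmt_TOKN.{u}) : ∀ a C1 ε1 : ℝ, 0 < a → a ≤ 1 / 100 → 0 < C1 → 0 < ε1 →
    ε1 ≤ 1 → ∃ e : ℝ, 0 < e ∧
    ∀ MS δ β c1 ρ0 ρ2 C C' : ℝ, 0 < ρ0 → ρ0 ≤ ε1 / 1000 → ρ2 ≤ ρ0 → 1 ≤ C → C ≤ C' → ∃ d0 : ℕ,
    ∀ {V I I' J : Type u} [Fintype V] [Fintype I] [Fintype I'] [Fintype J] (P : ℕ)
      (cl : Fin P → J) (H Gh S : J → SimpleGraph V) (O W K : Finset V) (A Ex Exc : J → Finset V)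
      (nd : J → V → Option (I × Bool)) (pr : I → I') (d : ℕ) (D r : J → ℕ) (g : ℝ) (L : ℕ),
      d0 ≤ d → Cls H Gh O W A Ex nd pr d D r a MS g δ β c1 C C' ρ0 →
      (∀ j, (univ.filter fun b => cl b = j).card + r j = D j) →
      (∀ j, ResN (H j) (Gh j) (S j) O (A j) (D j) (r j) a (g / 100) δ (2 * β + 8 * ρ0)
          (c1 / 100) (8 * ρ0) (8 * ρ2) MS K (Exc j)) → (∀ j, Ex j ⊆ Exc j) →
      (∀ j, Krn (S j) O (r j) L (D j) a C1 e) →
      ∃ N0 : Fin P → V → V, Mt0 H S cl O nd pr d D r a ε1 (1000 * C' ^ 2 * ρ0) L N0 := by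
  intro a C1 ε1 ha ha1 _ hε hε1
  obtain ⟨e, he, h1⟩ := cls_tok hTK a C1 ε1 ha ha1 hε hε1
  refine ⟨e, he, ?_⟩
  intro MS δ β c1 ρ0 ρ2 C C' hρ0 hρε hρ2 hC hCC'
  obtain ⟨d0, h2⟩ := h1 C C' hC hCC'
  refine ⟨d0, ?_⟩
  intro V I I' J _ _ _ _ P cl H Gh S O W K A Ex Exc nd pr d D r g L hd hC1 hcl hR hE hK
  have h3 : ∀ j, ∃ N : Fin P → V → V, M1 (univ.filter fun b => cl b = j) (H j) (S j) O (nd j) pr d
      (D j) (r j) a ε1 (1000 * C' ^ 2 * ρ0) L N := fun j =>
    h2 (univ.filter fun b => cl b = j) (H j) (Gh j) (S j) O (A j) (Ex j) (Exc j) K (nd j) pr d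
      (D j) (r j) L MS g δ β c1 ρ0 ρ2 _ _ _ _ _ hd hρ0 hρε hρ2 (hC1.wld j) (hC1.Dd j).1
      (hC1.Dd j).2 (hC1.rr j).2.2 (hC1.lgt j) hC1.prc (hcl j) (hR j) (hE j) (hK j)
  choose N hN using h3
  obtain ⟨N0, hN0⟩ : ∃ N0 : Fin P → V → V, N0 = fun b => N (cl b) b := ⟨_, rfl⟩
  have hNb : ∀ b, N0 b = N (cl b) b := fun b => by rw [hN0]
  have hNj : ∀ j b, cl b = j → N0 b = N j b := fun j b h => by rw [hNb, h]
  have hm : ∀ b, b ∈ univ.filter fun b' => cl b' = cl b := fun b => by simp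
  have hsg : ∀ j b i, cl b = j → sgn (nd j) N0 i b = sgn (nd j) (N j) i b := by
    intro j b i h
    rw [sgn_eq, sgn_eq, hNj j b h]
  have hsP : ∀ j b i', cl b = j → sgP (nd j) pr N0 i' b = sgP (nd j) pr (N j) i' b := by
    intro j b i' h
    unfold sgP
    exact Finset.sum_congr rfl fun i _ => by rw [hsg j b i h]
  have hfil : ∀ j b, b ∈ univ.filter (fun b' => cl b' = j) → cl b = j := fun j b h =>
    (Finset.mem_filter.1 h).2
  refine ⟨N0, ?_⟩
  constructor
  · intro b v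
    rw [hNb]
    exact (hN (cl b)).NN b (hm b) v
  · intro b v h
    rw [hNb] at h ⊢
    exact (hN (cl b)).NG b (hm b) v h
  · intro b b' v h h'
    by_cases hbb : cl b = cl b'
    · rw [hNb] at h
      rw [hNb, hNb b', ← hbb] at h'
      exact (hN (cl b)).Nd b (hm b) b' (by rw [hbb]; exact hm b') v h h'
    · exfalso
      have h'' : N0 b' v ≠ v := by rw [← h']; exact h
      have e1 := (hN (cl b)).NG b (hm b) v (by rw [← hNb]; exact h)
      have e2 := (hN (cl b')).NG b' (hm b') v (by rw [← hNb]; exact h'')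
      rw [← hNb] at e1 e2
      rw [← h'] at e2
      exact hC1.dis _ _ _ _ hbb e1.1 e2.1
  · intro j v w h h'
    obtain ⟨b, hb, hbw⟩ := (hN j).co v w h h'
    exact ⟨b, hfil j b hb, by rw [hNj j b (hfil j b hb)]; exact hbw⟩
  · intro j i
    rw [Finset.sum_congr rfl fun b hb => by rw [hsg j b i (hfil j b hb)]]
    exact (hN j).sum i
  · intro b i
    rw [hsg (cl b) b i rfl]
    exact (hN (cl b)).win b (hm b) i
  · intro j i
    rw [Finset.sum_congr rfl fun b hb => by rw [hsg j b i (hfil j b hb)]]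
    exact (hN j).winS i
  · intro b i'
    rw [hsP (cl b) b i' rfl]
    exact (hN (cl b)).winP b (hm b) i'
  · intro j i'
    rw [Finset.sum_congr rfl fun b hb => by rw [hsP j b i' (hfil j b hb)]]
    exact (hN j).winPS i'
  · intro b i s
    rw [hNb]
    exact (hN (cl b)).load b (hm b) i s
  · intro b v
    rw [hNb]
    exact (hN (cl b)).tok b (hm b) v
  · intro j x hx
    have := (hN j).tkc x hx
    have e1 : (univ.filter fun b => cl b = j ∧ N0 b x = x) =
        (univ.filter fun b => cl b = j).filter fun b => N j b x = x := by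
      ext b
      simp only [Finset.mem_filter, Finset.mem_univ, true_and]
      constructor
      · rintro ⟨g1, g2⟩
        exact ⟨g1, by rw [← hNj j b g1]; exact g2⟩
      · rintro ⟨g1, g2⟩
        exact ⟨g1, by rw [hNj j b g1]; exact g2⟩
    rw [e1]
    exact this
  · intro j v
    rw [Finset.sum_congr rfl fun b hb => by rw [hNj j b (hfil j b hb)]]
    exact (hN j).tst v

end Pool.Agent.Work.MP_db9399_ox.helper68
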