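import Pool.Agent.Work.MP_db9399_ox.Interface
import Pool.Agent.Work.MP_db9399_cg_helper35.Kern

/-! # OUTX, block OXT, part A: TOKN for a set of colours, counting lemmas (helper68) -/

set_option autoImplicit false
set_option linter.unusedSectionVars false

namespace Pool.Agent.Work.MP_db9399_ox.helper68

open Finset Classical
open Pool.Agent.Work.MP_db9399_all (nb)
open Pool.Agent.Work.MP_db9399_cg (cdg pk sx sp)
open Pool.Agent.Work.MP_db9399_sg
open Pool.Agent.Work.MP_db9399_en (HH wlk resE resO Wts)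
open Pool.Agent.Work.MP_db9399_cg.helper35 (pk_succ pk_nonneg last_step)

universe u

section

variable {V I I' : Type u} [Fintype V] [Fintype I] [Fintype I']

theorem mem_nb (G : SimpleGraph V) (v w : V) : w ∈ nb G v ↔ G.Adj v w := by
  unfold nb
  simp

/-- the signed number of one involution -/
noncomputable def sg1 (nd : V → Option (I × Bool)) (f : V → V) (i : I) : ℤ :=
  (((nsd nd i false).filter fun v => f v ≠ v).card : ℤ) -
    ((nsd nd i true).filter fun v => f v ≠ v).card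

theorem sgn_eq {P : ℕ} (nd : V → Option (I × Bool)) (N : Fin P → V → V) (i : I) (b : Fin P) :
    sgn nd N i b = sg1 nd (N b) i := rfl

end

/-- colourings with the colours of a set `B` -/
theorem lift_B {V : Type u} {Q : ℕ} (B : Finset (Fin Q)) (M : Fin B.card → V → V) :
    ∃ (N : Fin Q → V → V) (e : B ≃ Fin B.card), (∀ b (h : b ∈ B), N b = M (e ⟨b, h⟩)) ∧
      ∀ F : (V → V) → ℝ, ∑ b ∈ B, F (N b) = ∑ b', F (M b') := by
  refine ⟨fun b v => if h : b ∈ B then M (B.equivFin ⟨b, h⟩) v else v, B.equivFin, ?_, ?_⟩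
  · intro b hb
    funext v
    exact dif_pos hb
  · intro F
    rw [← Finset.sum_coe_sort B, ← Equiv.sum_comp B.equivFin]
    apply Finset.sum_congr rfl
    rintro ⟨b, hb⟩ _
    congr 1
    funext v
    simp only [dif_pos hb]

/-- the properties of TOKN for the colours of `B` -/
structure TB {V I I' : Type u} [Fintype V] [Fintype I] [Fintype I'] {Q : ℕ}
    (B : Finset (Fin Q)) (E S : SimpleGraph V) (O : Finset V) (nd : V → Option (I × Bool))
    (pr : I → I') (D : ℕ) (a ε : ℝ) (k : V → V → ℝ) (N : Fin Q → V → V) : Prop where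
  NN : ∀ b ∈ B, ∀ v, N b (N b v) = v
  NG : ∀ b ∈ B, ∀ v, N b v ≠ v → E.Adj v (N b v)
  Nd : ∀ b ∈ B, ∀ b' ∈ B, ∀ v, N b v ≠ v → N b v = N b' v → b = b'
  co : ∀ v w, E.Adj v w → ∃ b ∈ B, N b v = w
  tok : ∀ b ∈ B, ∀ v, (((nb S v ∩ O).filter fun w => N b w = w).card : ℝ) ≤ sp D a
  win : ∀ i, ∀ b ∈ B, |(sgn nd N i b : ℝ) - (∑ b' ∈ B, (sgn nd N i b' : ℝ)) / B.card| ≤ 2
  winS : ∀ i, ∑ b ∈ B, |(sgn nd N i b : ℝ) - (∑ b' ∈ B, (sgn nd N i b' : ℝ)) / B.card| ≤
    (1 + ε) * B.card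
  winP : ∀ i', ∀ b ∈ B, |(∑ i with pr i = i', (sgn nd N i b : ℝ)) -
    (∑ b' ∈ B, ∑ i with pr i = i', (sgn nd N i b' : ℝ)) / B.card| ≤ 2
  winPS : ∀ i', ∑ b ∈ B, |(∑ i with pr i = i', (sgn nd N i b : ℝ)) -
    (∑ b' ∈ B, ∑ i with pr i = i', (sgn nd N i b' : ℝ)) / B.card| ≤ (1 + ε) * B.card
  load : ∀ i s, ∀ b ∈ B, (((nsd nd i s).filter fun v => N b v ≠ v).card : ℝ) ≤
    8 * ((∑ v ∈ nsd nd i s, ((nb E v).card : ℝ)) / B.card) + sp D a
  tst : ∀ j, ∑ b ∈ B, |(∑ x ∈ O.filter (fun x => N b x = x), k j x) -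
    (∑ x ∈ O, k j x * ((B.filter fun b => N b x = x).card : ℝ)) / B.card| ≤ ε

theorem tok_B (hT : Stmt_TOKN.{u}) (a ε C : ℝ) (ha : 0 < a) (ha1 : a ≤ 1 / 100) (hε : 0 < ε)
    (hC : 1 ≤ C) : ∃ e : ℝ, 0 < e ∧ ∀ C' : ℝ, 1 ≤ C' → ∃ d0 : ℕ,
      ∀ {V I I' : Type u} [Fintype V] [Fintype I] [Fintype I'] {Q : ℕ} (B : Finset (Fin Q))
      (E S : SimpleGraph V) (O : Finset V) (nd : V → Option (I × Bool)) (pr : I → I')
      (D r : ℕ) (k : V → V → ℝ),
      d0 ≤ D → (∀ i', (univ.filter fun i => pr i = i').card ≤ 2) →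
      (∀ v ∈ O, nd v = none) → (∀ i s, ((nsd nd i s).card : ℝ) ≤ C' * D) →
      (D : ℝ) ≤ 2 * B.card → B.card ≤ D + 1 → r ≤ D → (∀ v, (nb S v).card ≤ r + 2) →
      (∀ v, (nb E v).card + 1 ≤ B.card) → (∀ v ∈ O, B.card ≤ (nb E v).card + 4) →
      (∀ v, nd v ≠ none → 8 * (nb E v).card ≤ D) → TstN O k D a C e →
      ∃ N : Fin Q → V → V, TB B E S O nd pr D a ε k N := by
  obtain ⟨e, he, h1⟩ := hT a ε C ha ha1 hε hC
  refine ⟨e, he, fun C' hC' => ?_⟩
  obtain ⟨d0, h2⟩ := h1 C' hC'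
  refine ⟨d0, ?_⟩
  intro V I I' _ _ _ Q B E S O nd pr D r k hD g1 g2 g3 g4 g5 g6 g7 g8 g9 g10 g11
  obtain ⟨M, m1, m2, m3, m4, m5, m6, m7, m8, m9⟩ := h2 E S O nd pr D B.card r k hD g1 g2 g3 g4 g5
    g6 g7 g8 g9 g10 g11
  obtain ⟨N, eq, hN, hF⟩ := lift_B B M
  have hs1 : ∀ i, ∑ b' ∈ B, (sgn nd N i b' : ℝ) = ∑ b', (sgn nd M i b' : ℝ) := fun i => by
    have := hF fun f => (sg1 nd f i : ℝ)
    exact this
  have hs2 : ∀ i', ∑ b' ∈ B, ∑ i with pr i = i', (sgn nd N i b' : ℝ) =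
      ∑ b', ∑ i with pr i = i', (sgn nd M i b' : ℝ) := fun i' => by
    have := hF fun f => ∑ i with pr i = i', (sg1 nd f i : ℝ)
    exact this
  have hsg : ∀ i b (h : b ∈ B), sgn nd N i b = sgn nd M i (eq ⟨b, h⟩) := fun i b h => by
    rw [sgn_eq, sgn_eq, hN b h]
  have hsg2 : ∀ i' b (h : b ∈ B), ∑ i with pr i = i', (sgn nd N i b : ℝ) =
      ∑ i with pr i = i', (sgn nd M i (eq ⟨b, h⟩) : ℝ) := fun i' b h =>
    Finset.sum_congr rfl fun i _ => by rw [hsg i b h]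
  have hcnt : ∀ x, ((B.filter fun b => N b x = x).card : ℝ) =
      ((univ.filter fun b' => M b' x = x).card : ℝ) := by
    intro x
    have := hF fun f => if f x = x then (1 : ℝ) else 0
    simp only [Finset.sum_boole] at this
    exact this
  refine ⟨N, ?_⟩
  constructor
  · intro b hb v
    rw [hN b hb]
    exact m1.NN _ v
  · intro b hb v h
    rw [hN b hb] at h ⊢
    exact m1.NG _ v h
  · intro b hb b' hb' v h h'
    rw [hN b hb, hN b' hb'] at h'
    rw [hN b hb] at h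
    have := eq.injective (m1.Nd _ _ v h h')
    exact congrArg Subtype.val this
  · intro v w h
    obtain ⟨b', hb'⟩ := m2 v w h
    refine ⟨(eq.symm b').1, (eq.symm b').2, ?_⟩
    rw [hN _ (eq.symm b').2]
    simpa using hb'
  · intro b hb v
    rw [hN b hb]
    exact m3 _ v
  · intro i b hb
    rw [hs1, hsg i b hb]
    exact m4 i _
  · intro i
    rw [hs1]
    have := hF fun f => |(sg1 nd f i : ℝ) - (∑ b', (sgn nd M i b' : ℝ)) / B.card|
    have h5 := m5 i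
    exact this.trans_le h5
  · intro i' b hb
    rw [hs2, hsg2 i' b hb]
    exact m6 i' _
  · intro i'
    rw [hs2]
    have := hF fun f => |(∑ i with pr i = i', (sg1 nd f i : ℝ)) -
      (∑ b', ∑ i with pr i = i', (sgn nd M i b' : ℝ)) / B.card|
    exact this.trans_le (m7 i')
  · intro i s b hb
    rw [hN b hb]
    exact m8 i s _
  · intro j
    simp only [hcnt]
    have := hF fun f => |(∑ x ∈ O.filter (fun x => f x = x), k j x) -
      (∑ x ∈ O, k j x * ((univ.filter fun b' => M b' x = x).card : ℝ)) / B.card|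
    exact this.trans_le (m9 j)

end Pool.Agent.Work.MP_db9399_ox.helper68
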