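import Pool.Agent.Work.MP_db9399_ox_helper68.OXTA

/-! # OUTX, block OXT, part B: counting in one class, kernel mass (helper68) -/

set_option autoImplicit false
set_option linter.unusedSectionVars false

namespace Pool.Agent.Work.MP_db9399_ox.helper68

open Finset Classical
open Pool.Agent.Work.MP_db9399_all (nb)
open Pool.Agent.Work.MP_db9399_cg (cdg pk sx sp)
open Pool.Agent.Work.MP_db9399_sg
open Pool.Agent.Work.MP_db9399_en (HH wlk resE resO Wts)
open Pool.Agent.Work.MP_db9399_cg.helper35 (pk_succ pk_nonneg last_step)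

universe u

section

variable {V I I' : Type u} [Fintype V] [Fintype I] [Fintype I']
  {H Gh S : SimpleGraph V} {O A Ex Exc K : Finset V} {nd : V → Option (I × Bool)} {D r : ℕ}
  {a MS g δ β c1 C' ρ0 ρ2 gS δS βS c1S MSS : ℝ}

theorem mem_nsd {i : I} {s : Bool} {v : V} : v ∈ nsd nd i s ↔ nd v = some (i, s) := by
  unfold nsd
  simp

theorem card_nb_sdiff (H S : SimpleGraph V) (v : V) :
    (nb (H \ S) v).card + (nb (H ⊓ S) v).card = (nb H v).card := by
  rw [← Finset.card_union_of_disjoint]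
  · congr 1
    ext w
    simp only [Finset.mem_union, mem_nb, SimpleGraph.sdiff_adj, SimpleGraph.inf_adj]
    tauto
  · rw [Finset.disjoint_left]
    intro w h1 h2
    rw [mem_nb] at h1 h2
    exact h1.2 h2.2

theorem real_O (hW : Wld H Gh O A Ex nd D MS g δ β c1 C' ρ0) {v w : V} (hv : v ∈ O)
    (h : Gh.Adj v w) : H.Adj v w := by
  by_contra hn
  obtain ⟨i, s, h1, -⟩ := hW.gad v w h hn
  rw [(hW.cov v (hW.OA hv)).1 hv] at h1
  cases h1

theorem nbGh_O (hW : Wld H Gh O A Ex nd D MS g δ β c1 C' ρ0) {v : V} (hv : v ∈ O) :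
    nb Gh v = nb H v := by
  ext w
  rw [mem_nb, mem_nb]
  exact ⟨real_O hW hv, fun h => hW.HG h⟩

theorem nbS_O (hW : Wld H Gh O A Ex nd D MS g δ β c1 C' ρ0)
    (hR : ResN H Gh S O A D r a gS δS βS c1S ρ0 ρ2 MSS K Exc) {v : V} (hv : v ∈ O) :
    nb (H ⊓ S) v = nb S v := by
  ext w
  rw [mem_nb, mem_nb, SimpleGraph.inf_adj]
  exact ⟨fun h => h.2, fun h => ⟨real_O hW hv (hR.sub h), h⟩⟩

end

section

variable {V I I' : Type u} [Fintype V] [Fintype I] [Fintype I']
  {H Gh S : SimpleGraph V} {O A Ex Exc K : Finset V} {nd : V → Option (I × Bool)} {D r : ℕ}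
  {a MS g δ β c1 C' ρ0 ρ1 ρ2 gS δS βS c1S MSS : ℝ}

theorem nbS_O' (hW : Wld H Gh O A Ex nd D MS g δ β c1 C' ρ0)
    (hR : ResN H Gh S O A D r a gS δS βS c1S ρ1 ρ2 MSS K Exc) {v : V} (hv : v ∈ O) :
    nb (H ⊓ S) v = nb S v := by
  ext w
  rw [mem_nb, mem_nb, SimpleGraph.inf_adj]
  exact ⟨fun h => h.2, fun h => ⟨real_O hW hv (hR.sub h), h⟩⟩

/-- degrees outside the reserve, upper bound -/
theorem degE_le (hW : Wld H Gh O A Ex nd D MS g δ β c1 C' ρ0)
    (hR : ResN H Gh S O A D r a gS δS βS c1S ρ1 ρ2 MSS K Exc) (hrD : r + 1 ≤ D) (v : V) :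
    (nb (H \ S) v).card + r + 1 ≤ D := by
  by_cases hv : v ∈ A
  · have h1 := hR.eg v hv
    have h2 : (nb (H \ S) v).card + (nb S v).card ≤ (nb Gh v).card := by
      rw [← Finset.card_union_of_disjoint]
      · apply Finset.card_le_card
        intro w hw
        rw [Finset.mem_union, mem_nb, mem_nb, SimpleGraph.sdiff_adj] at hw
        rw [mem_nb]
        rcases hw with hw | hw
        · exact hW.HG hw.1
        · exact hR.sub hw
      · rw [Finset.disjoint_left]
        intro w h1 h2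
        rw [mem_nb] at h1 h2
        exact h1.2 h2
    omega
  · have : nb (H \ S) v = ∅ := by
      ext w
      rw [mem_nb, SimpleGraph.sdiff_adj]
      simp only [Finset.notMem_empty, iff_false, not_and, not_not]
      intro h
      exact absurd (hW.sup v w (hW.HG h)) hv
    rw [this, Finset.card_empty]
    omega

/-- degrees outside the reserve on `O` -/
theorem degE_O (hW : Wld H Gh O A Ex nd D MS g δ β c1 C' ρ0)
    (hR : ResN H Gh S O A D r a gS δS βS c1S ρ1 ρ2 MSS K Exc) {v : V} (hv : v ∈ O) :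
    (nb (H \ S) v).card + (nb S v).card = (nb H v).card ∧ (nb H v).card ≤ D ∧
      D ≤ (nb H v).card + 1 ∧ r ≤ (nb S v).card ∧ (nb S v).card ≤ r + 2 := by
  have h1 := card_nb_sdiff H S v
  rw [nbS_O' hW hR hv] at h1
  have h2 := hW.dex v (hW.OA hv)
  rw [nbGh_O hW hv] at h2
  exact ⟨h1, h2.1, h2.2, hR.cl.lo v (hW.OA hv), hR.cl.hi v⟩

/-- double counting: the sum of the signed numbers -/
theorem sum_cnt {Q : ℕ} (B : Finset (Fin Q)) (N : Fin Q → V → V) (T : Finset V) :
    ∑ b ∈ B, ((T.filter fun v => N b v ≠ v).card : ℝ) =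
      ∑ v ∈ T, ((B.filter fun b => N b v ≠ v).card : ℝ) := by
  simp only [← Finset.sum_boole]
  exact Finset.sum_comm

theorem cnt_nb {Q : ℕ} {B : Finset (Fin Q)} {E : SimpleGraph V} {pr : I → I'} {ε : ℝ}
    {k : V → V → ℝ} {N : Fin Q → V → V} (hT : TB B E S O nd pr D a ε k N) (v : V) :
    (B.filter fun b => N b v ≠ v).card = (nb E v).card := by
  apply Finset.card_bij (fun b _ => N b v)
  · intro b hb
    rw [Finset.mem_filter] at hb
    rw [mem_nb]
    exact hT.NG b hb.1 v hb.2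
  · intro b hb b' hb' h
    rw [Finset.mem_filter] at hb hb'
    exact hT.Nd b hb.1 b' hb'.1 v hb.2 h
  · intro w hw
    rw [mem_nb] at hw
    obtain ⟨b, hb, hbw⟩ := hT.co v w hw
    exact ⟨b, Finset.mem_filter.2 ⟨hb, by rw [hbw]; exact hw.ne'⟩, hbw⟩

theorem cnt_fix {Q : ℕ} {B : Finset (Fin Q)} {E : SimpleGraph V} {pr : I → I'} {ε : ℝ}
    {k : V → V → ℝ} {N : Fin Q → V → V} (hT : TB B E S O nd pr D a ε k N) (v : V) :
    (B.filter fun b => N b v = v).card + (nb E v).card = B.card := by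
  rw [← cnt_nb hT v]
  exact Finset.card_filter_add_card_filter_not _

theorem sum_sgn {Q : ℕ} {B : Finset (Fin Q)} {E : SimpleGraph V} {pr : I → I'} {ε : ℝ}
    {k : V → V → ℝ} {N : Fin Q → V → V} (hT : TB B E S O nd pr D a ε k N) (i : I) :
    ∑ b ∈ B, (sgn nd N i b : ℝ) = sdg E nd i := by
  unfold sgn sdg
  push_cast
  rw [Finset.sum_sub_distrib, sum_cnt, sum_cnt]
  simp only [cnt_nb hT]

/-- host edges do not contribute to the signed sum -/
theorem nb_cross {F : SimpleGraph V}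
    (hF : ∀ v w, F.Adj v w → ∃ i s, nd v = some (i, s) ∧ nd w = some (i, !s)) (i : I) (s : Bool)
    {v : V} (hv : v ∈ nsd nd i s) : nb F v = (nsd nd i (!s)).filter fun w => F.Adj v w := by
  ext w
  rw [mem_nb, Finset.mem_filter, mem_nsd]
  constructor
  · intro h
    obtain ⟨i', s', h1, h2⟩ := hF v w h
    rw [mem_nsd.1 hv, Option.some.injEq, Prod.mk.injEq] at h1
    rw [← h1.1, ← h1.2] at h2
    exact ⟨h2, h⟩
  · exact fun h => h.2

theorem sdg_cross {F : SimpleGraph V}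
    (hF : ∀ v w, F.Adj v w → ∃ i s, nd v = some (i, s) ∧ nd w = some (i, !s)) (i : I) :
    sdg F nd i = 0 := by
  unfold sdg
  rw [sub_eq_zero]
  have h1 : ∀ s, ∑ v ∈ nsd nd i s, ((nb F v).card : ℝ) =
      ∑ v ∈ nsd nd i s, ∑ w ∈ nsd nd i (!s), if F.Adj v w then (1 : ℝ) else 0 := by
    intro s
    apply Finset.sum_congr rfl
    intro v hv
    rw [nb_cross hF i s hv, Finset.sum_boole]
  rw [h1 false, h1 true, Finset.sum_comm]
  apply Finset.sum_congr rfl
  intro v _
  apply Finset.sum_congr rfl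
  intro w _
  rw [F.adj_comm]

theorem sdg_sub (hW : Wld H Gh O A Ex nd D MS g δ β c1 C' ρ0)
    (hR : ResN H Gh S O A D r a gS δS βS c1S ρ1 ρ2 MSS K Exc) (i : I) :
    sdg (H \ S) nd i = sdg H nd i - sdg S nd i := by
  have h0 : sdg (S \ H) nd i = 0 := by
    apply sdg_cross
    intro v w h
    rw [SimpleGraph.sdiff_adj] at h
    exact hW.gad v w (hR.sub h.1) h.2
  have h1 : ∀ v, ((nb H v).card : ℝ) - (nb S v).card =
      ((nb (H \ S) v).card : ℝ) - (nb (S \ H) v).card := by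
    intro v
    have e1 := card_nb_sdiff H S v
    have e2 := card_nb_sdiff S H v
    rw [inf_comm] at e2
    have e3 : (nb (H \ S) v).card + (nb S v).card = (nb H v).card + (nb (S \ H) v).card := by
      omega
    have e4 : ((nb (H \ S) v).card : ℝ) + (nb S v).card = (nb H v).card + (nb (S \ H) v).card := by
      exact_mod_cast e3
    linarith
  unfold sdg at h0 ⊢
  have h2 : ∀ s, ∑ v ∈ nsd nd i s, ((nb H v).card : ℝ) - ∑ v ∈ nsd nd i s, ((nb S v).card : ℝ) =
      ∑ v ∈ nsd nd i s, ((nb (H \ S) v).card : ℝ) -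
        ∑ v ∈ nsd nd i s, ((nb (S \ H) v).card : ℝ) := by
    intro s
    rw [← Finset.sum_sub_distrib, ← Finset.sum_sub_distrib]
    exact Finset.sum_congr rfl fun v _ => h1 v
  have h3 := h2 false
  have h4 := h2 true
  linarith

/-- the exceptional vertices of one side -/
theorem exc_side (hW : Wld H Gh O A Ex nd D MS g δ β c1 C' ρ0)
    (hR : ResN H Gh S O A D r a gS δS βS c1S ρ1 ρ2 MSS K Exc) (hD : 0 < D) (hr : 0 < r)
    (hlgt : ∀ v, nd v ≠ none → 8 * (nb H v).card ≤ D) (hρ1 : 0 ≤ ρ1) (hρ2 : ρ2 ≤ 1 / 100) (i : I)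
    (s : Bool) : (((nsd nd i s).filter fun v => v ∈ Exc).card : ℝ) ≤ 2 * C' * ρ1 * D := by
  have hD' : (0 : ℝ) < D := by exact_mod_cast hD
  have hr' : (0 : ℝ) < r := by exact_mod_cast hr
  obtain ⟨F, hFd⟩ : ∃ F, F = S \ H := ⟨_, rfl⟩
  have hF : ∀ v w, F.Adj v w → ∃ i s, nd v = some (i, s) ∧ nd w = some (i, !s) := by
    intro v w h
    rw [hFd, SimpleGraph.sdiff_adj] at h
    exact hW.gad v w (hR.sub h.1) h.2
  have h1 : ∀ v ∈ (nsd nd i s).filter (fun v => v ∈ Exc), (r : ℝ) / 2 ≤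
      ∑ w ∈ nsd nd i (!s), if F.Adj v w then (1 : ℝ) else 0 := by
    intro v hv
    rw [Finset.mem_filter] at hv
    have hnd : nd v ≠ none := by rw [mem_nsd.1 hv.1]; simp
    have hvA := hW.nA v hnd
    have hvO : v ∉ O := fun h => hnd ((hW.cov v hvA).1 h)
    have e0 : ∑ w ∈ nsd nd i (!s), (if F.Adj v w then (1 : ℝ) else 0) =
        ((nb F v).card : ℝ) := by
      rw [nb_cross hF i s hv.1, Finset.sum_boole]
    rw [e0]
    have e1 := card_nb_sdiff S H v
    rw [← hFd] at e1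
    have e2 := hR.lg v hvO
    have e3 : (nb S v).filter (fun w => H.Adj v w) = nb (S ⊓ H) v := by
      ext w
      rw [Finset.mem_filter, mem_nb, mem_nb, SimpleGraph.inf_adj]
    rw [e3] at e2
    have e4 := hR.cl.lo v hvA
    have e5 : (r : ℝ) ≤ (nb F v).card + (nb (S ⊓ H) v).card := by
      rw [← Nat.cast_add, e1]
      exact_mod_cast e4
    have e6 : ((nb H v).card : ℝ) / D ≤ 1 / 8 := by
      rw [div_le_div_iff₀ hD' (by norm_num)]
      have := hlgt v hnd
      have h8 : (8 : ℝ) * (nb H v).card ≤ D := by exact_mod_cast this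
      linarith
    have e7 : (2 * ((nb H v).card / D) + ρ2) * (r : ℝ) ≤ (1 / 4 + 1 / 100) * r := by
      apply mul_le_mul_of_nonneg_right _ hr'.le
      linarith
    linarith
  have h2 : ∀ w ∈ nsd nd i (!s), (∑ v ∈ (nsd nd i s).filter (fun v => v ∈ Exc),
      if F.Adj v w then (1 : ℝ) else 0) ≤ ρ1 * r := by
    intro w _
    rw [Finset.sum_boole]
    refine le_trans ?_ (hR.exc w)
    have : (((nsd nd i s).filter fun v => v ∈ Exc).filter fun v => F.Adj v w) ⊆
        nb S w ∩ Exc := by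
      intro v hv
      rw [Finset.mem_filter, Finset.mem_filter, hFd, SimpleGraph.sdiff_adj] at hv
      rw [Finset.mem_inter, mem_nb]
      exact ⟨hv.2.1.symm, hv.1.2⟩
    exact_mod_cast Finset.card_le_card this
  have h3 := Finset.sum_le_sum h1
  have h4 := Finset.sum_le_sum h2
  rw [Finset.sum_comm] at h4
  rw [Finset.sum_const, nsmul_eq_mul] at h3 h4
  have h5 := hW.sz2 i (!s)
  have h6 : ((nsd nd i (!s)).card : ℝ) * (ρ1 * r) ≤ C' * D * (ρ1 * r) :=
    mul_le_mul_of_nonneg_right h5 (by positivity)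
  have h7 : (((nsd nd i s).filter fun v => v ∈ Exc).card : ℝ) * (r / 2) ≤
      2 * C' * ρ1 * D * (r / 2) := by
    calc _ ≤ _ := h3
      _ ≤ _ := h4
      _ ≤ _ := h6
      _ = 2 * C' * ρ1 * D * (r / 2) := by ring
  exact le_of_mul_le_mul_right h7 (by positivity)

theorem sdg_S (hW : Wld H Gh O A Ex nd D MS g δ β c1 C' ρ0)
    (hR : ResN H Gh S O A D r a gS δS βS c1S ρ1 ρ2 MSS K Exc) (hD : 0 < D) (hr : 0 < r)
    (hlgt : ∀ v, nd v ≠ none → 8 * (nb H v).card ≤ D) (hρ1 : 0 ≤ ρ1) (hρ2 : ρ2 ≤ 1 / 100) (i : I) :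
    |sdg S nd i| ≤ 4 * C' * ρ1 * D := by
  have h1 : ∀ s, |∑ v ∈ nsd nd i s, ((nb S v).card : ℝ) -
      ((nsd nd i s).card : ℝ) * (r + 1)| ≤ (((nsd nd i s).filter fun v => v ∈ Exc).card : ℝ) := by
    intro s
    rw [← nsmul_eq_mul, ← Finset.sum_const, ← Finset.sum_sub_distrib]
    refine (Finset.abs_sum_le_sum_abs _ _).trans ?_
    rw [← Finset.sum_boole]
    apply Finset.sum_le_sum
    intro v hv
    have hnd : nd v ≠ none := by rw [mem_nsd.1 hv]; simp
    have hvA := hW.nA v hnd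
    split_ifs with h
    · have e1 := hR.cl.lo v hvA
      have e2 := hR.cl.hi v
      have e3 : (r : ℝ) ≤ (nb S v).card := by exact_mod_cast e1
      have e4 : ((nb S v).card : ℝ) ≤ r + 2 := by exact_mod_cast e2
      rw [abs_le]
      constructor <;> linarith
    · rw [hR.off v hvA h]
      push_cast
      rw [sub_self, abs_zero]
  have h2 := exc_side hW hR hD hr hlgt hρ1 hρ2 i false
  have h3 := exc_side hW hR hD hr hlgt hρ1 hρ2 i true
  have h4 := h1 false
  have h5 := h1 true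
  rw [hW.sz i] at h4
  unfold sdg
  rw [abs_le] at h4 h5 ⊢
  constructor <;> linarith

/-! ### kernel mass -/

theorem row_succ (S : SimpleGraph V) (r n : ℕ) (v : V) :
    ∑ x, pk S r (n + 1) v x = (∑ w ∈ nb S v, ∑ x, pk S r n w x) / r := by
  rw [Finset.sum_comm, Finset.sum_div]
  exact Finset.sum_congr rfl fun x _ => pk_succ S r n v x

theorem row_mono' (S : SimpleGraph V) (A : Finset V) (r : ℕ) (hr : 0 < r)
    (hsup : ∀ v w, S.Adj v w → v ∈ A) (hlo : ∀ v ∈ A, r ≤ (nb S v).card) (n : ℕ) :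
    ∀ v ∈ A, ∑ x, pk S r n v x ≤ ∑ x, pk S r (n + 1) v x := by
  have hr' : (0 : ℝ) < r := by exact_mod_cast hr
  induction n with
  | zero =>
    intro v hv
    rw [row_succ]
    have h0 : ∀ w, ∑ x, pk S r 0 w x = 1 := by
      intro w
      unfold pk
      simp
    simp only [h0, Finset.sum_const, nsmul_eq_mul, mul_one]
    rw [le_div_iff₀ hr', one_mul]
    exact_mod_cast hlo v hv
  | succ n ih =>
    intro v hv
    rw [row_succ S r n v, row_succ S r (n + 1) v]
    apply div_le_div_of_nonneg_right _ hr'.le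
    apply Finset.sum_le_sum
    intro w hw
    rw [mem_nb] at hw
    exact ih w (hsup w v hw.symm)

theorem mass (S : SimpleGraph V) (A X : Finset V) (r : ℕ) (c : ℝ) (hr : 0 < r) (hc : 0 ≤ c)
    (hsup : ∀ v w, S.Adj v w → v ∈ A) (hlo : ∀ v ∈ A, r ≤ (nb S v).card)
    (hX : ∀ v, ((nb S v ∩ X).card : ℝ) ≤ c * r) (n : ℕ) (v : V) :
    ∑ x ∈ X, pk S r (n + 1) v x ≤ c * ∑ x, pk S r (n + 1) v x := by
  by_cases hv : v ∈ A
  · have h1 := last_step S r n hr (fun x => if x ∈ X then (1 : ℝ) else 0) c (by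
      intro y
      rw [Finset.sum_boole]
      refine le_trans ?_ (hX y)
      exact_mod_cast Finset.card_le_card (by
        intro x hx
        rw [Finset.mem_filter] at hx
        exact Finset.mem_inter.2 hx)) v
    have h2 : ∑ x, pk S r (n + 1) v x * (if x ∈ X then (1 : ℝ) else 0) =
        ∑ x ∈ X, pk S r (n + 1) v x := by
      simp
    rw [h2] at h1
    exact h1.trans (mul_le_mul_of_nonneg_left (row_mono' S A r hr hsup hlo n v hv) hc)
  · have h0 : ∀ x, pk S r (n + 1) v x = 0 := by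
      intro x
      rw [pk_succ]
      have : nb S v = ∅ := by
        ext w
        rw [mem_nb]
        simp only [Finset.notMem_empty, iff_false]
        exact fun h => hv (hsup v w h)
      rw [this, Finset.sum_empty, zero_div]
    simp only [h0, Finset.sum_const_zero, mul_zero]
    exact le_rfl

theorem mass_k (S : SimpleGraph V) (A X : Finset V) (r L : ℕ) (c : ℝ) (hr : 0 < r) (hc : 0 ≤ c)
    (hsup : ∀ v w, S.Adj v w → v ∈ A) (hlo : ∀ v ∈ A, r ≤ (nb S v).card)
    (hX : ∀ v, ((nb S v ∩ X).card : ℝ) ≤ c * r) (v : V) :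
    ∑ x ∈ X, (k0 S r L v x + k1 S r L v x) ≤ c * ∑ x, (k0 S r L v x + k1 S r L v x) := by
  have h0 : ∀ (T : Finset V) (f : ℕ → ℕ), ∑ x ∈ T, (∑ l ∈ Ico L (2 * L), pk S r (f l) v x) / L =
      (∑ l ∈ Ico L (2 * L), ∑ x ∈ T, pk S r (f l) v x) / (L : ℝ) := by
    intro T f
    rw [← Finset.sum_div, Finset.sum_comm]
  have hf : ∀ f : ℕ → ℕ, (∀ l ∈ Ico L (2 * L), 1 ≤ f l) →
      ∑ x ∈ X, (∑ l ∈ Ico L (2 * L), pk S r (f l) v x) / L ≤
        c * ∑ x, (∑ l ∈ Ico L (2 * L), pk S r (f l) v x) / (L : ℝ) := by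
    intro f hf1
    rw [h0, h0, mul_div_assoc']
    apply div_le_div_of_nonneg_right _ (Nat.cast_nonneg L)
    rw [Finset.mul_sum]
    apply Finset.sum_le_sum
    intro l hl
    have := mass S A X r c hr hc hsup hlo hX (f l - 1) v
    rwa [Nat.sub_add_cancel (hf1 l hl)] at this
  rw [Finset.sum_add_distrib, Finset.sum_add_distrib, mul_add]
  apply add_le_add
  · apply hf
    intro l hl
    rw [Finset.mem_Ico] at hl
    omega
  · apply hf
    intro l hl
    rw [Finset.mem_Ico] at hl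
    omega

theorem k0_nonneg (S : SimpleGraph V) (r L : ℕ) (v x : V) : 0 ≤ k0 S r L v x :=
  div_nonneg (Finset.sum_nonneg fun _ _ => pk_nonneg _ _ _ _ _) (Nat.cast_nonneg L)

theorem k1_nonneg (S : SimpleGraph V) (r L : ℕ) (v x : V) : 0 ≤ k1 S r L v x :=
  div_nonneg (Finset.sum_nonneg fun _ _ => pk_nonneg _ _ _ _ _) (Nat.cast_nonneg L)

end

end Pool.Agent.Work.MP_db9399_ox.helper68
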